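import Pool.Agent.helper55.NM.Spec

/-!
# nm:BB: the bound for `3 ≤ p` elements of the smaller sign class
-/

set_option autoImplicit false

namespace Pool.Agent.helper87.NM

open Pool.Agent.NM Finset Nat

theorem BB (hCNT : CNT_stmt) (hPTB : PTB_stmt) (hTRV : TRV_stmt) (hBAD : BAD_stmt)
    (hASY : ASY_stmt) : BB_stmt := by
  classical
  intro ε p hε hp
  obtain ⟨L, n0, hA⟩ := hASY ε p hε
  refine ⟨n0, fun q k hn hk1 hk2 X y hX hy => ?_⟩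
  obtain ⟨h1, h2, h3, h4, h5, h6⟩ := hA q k hn hk1 hk2
  have hn0 : (0 : ℝ) < (p : ℝ) + q := by
    have : 0 < p + q := by omega
    exact_mod_cast this
  have hD0 : 0 < 1 - (p : ℝ) ^ 2 / ((p : ℝ) + q) := by
    rw [sub_pos, div_lt_one hn0]
    exact_mod_cast h4
  have hε1 : ε ≤ 1 / 12 := by linarith
  have hG0 : 0 ≤ (1 - ε) * (2 * ((k : ℝ) / ((p : ℝ) + q)) * (1 - (k : ℝ) / ((p : ℝ) + q))) +
      (1 - 2 * ε) ^ L := by
    have a1 : 0 ≤ (1 - 2 * ε) ^ L := pow_nonneg (by linarith) _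
    have a2 : 0 ≤ (k : ℝ) / ((p : ℝ) + q) := by linarith
    have a3 : 0 ≤ 1 - (k : ℝ) / ((p : ℝ) + q) := by linarith
    have a4 : 0 ≤ 1 - ε := by linarith
    have a5 : 0 ≤ (1 - ε) * (2 * ((k : ℝ) / ((p : ℝ) + q)) * (1 - (k : ℝ) / ((p : ℝ) + q))) :=
      mul_nonneg a4 (mul_nonneg (mul_nonneg (by norm_num) a2) a3)
    linarith
  have hfac : (0 : ℝ) < ((q !) : ℝ) := by exact_mod_cast Nat.factorial_pos q
  have hk0 : (0 : ℝ) < k := by exact_mod_cast h2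
  have hb := hBAD q k (p + L) (p + 1) y hy h2 (by omega) h1
  have hbR : ((univ.filter (fun τ : Equiv.Perm (Fin q) => Yp y τ k ≤
      ((p + 1 : ℕ) : ℝ) * (Yp y τ k - Yp y τ (k - (p + L))))).card : ℝ) * k ≤
      ((p + 1 : ℕ) : ℝ) * ((p + L : ℕ) : ℝ) * ((q !) : ℝ) := by exact_mod_cast hb
  have hcnt : ((ZS X y k).card : ℝ) * ((q !) : ℝ) =
      ∑ τ : Equiv.Perm (Fin q), (Wt X y k τ : ℝ) := by exact_mod_cast hCNT p q k X y
  have hC0 : (0 : ℝ) ≤ ((p + q).choose k : ℝ) := Nat.cast_nonneg _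
  -- the good orders
  have hgood : ∑ τ ∈ univ.filter (fun τ : Equiv.Perm (Fin q) => ¬ (Yp y τ k ≤
      ((p + 1 : ℕ) : ℝ) * (Yp y τ k - Yp y τ (k - (p + L))))), (Wt X y k τ : ℝ) ≤
      ((q !) : ℝ) * ((((1 - ε) * (2 * ((k : ℝ) / ((p : ℝ) + q)) * (1 - (k : ℝ) / ((p : ℝ) + q))) +
        (1 - 2 * ε) ^ L) / (1 - (p : ℝ) ^ 2 / ((p : ℝ) + q))) * ((p + q).choose k : ℝ)) := by
    have hB0 : 0 ≤ (((1 - ε) * (2 * ((k : ℝ) / ((p : ℝ) + q)) * (1 - (k : ℝ) / ((p : ℝ) + q))) +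
        (1 - 2 * ε) ^ L) / (1 - (p : ℝ) ^ 2 / ((p : ℝ) + q))) * ((p + q).choose k : ℝ) :=
      mul_nonneg (div_nonneg hG0 hD0.le) hC0
    have h7 := Finset.sum_le_card_nsmul (univ.filter (fun τ : Equiv.Perm (Fin q) => ¬ (Yp y τ k ≤
      ((p + 1 : ℕ) : ℝ) * (Yp y τ k - Yp y τ (k - (p + L)))))) (fun τ => (Wt X y k τ : ℝ))
      ((((1 - ε) * (2 * ((k : ℝ) / ((p : ℝ) + q)) * (1 - (k : ℝ) / ((p : ℝ) + q))) +
        (1 - 2 * ε) ^ L) / (1 - (p : ℝ) ^ 2 / ((p : ℝ) + q))) * ((p + q).choose k : ℝ))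
      (fun τ hτ => by
        have hτ' := (Finset.mem_filter.1 hτ).2
        have h8 := hPTB p q k L X y ε τ hX hy hp hε h1 (by omega) h4 hk1 hk2 h5 hτ'
        rw [div_mul_eq_mul_div, le_div_iff₀ hD0, mul_comm]
        exact h8)
    refine h7.trans ?_
    rw [nsmul_eq_mul]
    apply mul_le_mul_of_nonneg_right _ hB0
    have h9 : (univ.filter (fun τ : Equiv.Perm (Fin q) => ¬ (Yp y τ k ≤
      ((p + 1 : ℕ) : ℝ) * (Yp y τ k - Yp y τ (k - (p + L)))))).card ≤ q ! := by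
      refine (Finset.card_le_univ _).trans ?_
      rw [Fintype.card_perm, Fintype.card_fin]
    exact_mod_cast h9
  -- the bad orders
  have hbad : ∑ τ ∈ univ.filter (fun τ : Equiv.Perm (Fin q) => Yp y τ k ≤
      ((p + 1 : ℕ) : ℝ) * (Yp y τ k - Yp y τ (k - (p + L)))), (Wt X y k τ : ℝ) ≤
      ((q !) : ℝ) * (((p + 1 : ℕ) : ℝ) * ((p + L : ℕ) : ℝ) / k * (2 ^ p * (q.choose k : ℝ))) := by
    have h7 := Finset.sum_le_card_nsmul (univ.filter (fun τ : Equiv.Perm (Fin q) => Yp y τ k ≤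
      ((p + 1 : ℕ) : ℝ) * (Yp y τ k - Yp y τ (k - (p + L))))) (fun τ => (Wt X y k τ : ℝ))
      (2 ^ p * (q.choose k : ℝ)) (fun τ _ => by exact_mod_cast hTRV p q k X y τ hy h3)
    refine h7.trans ?_
    rw [nsmul_eq_mul, ← mul_assoc ((q !) : ℝ)]
    apply mul_le_mul_of_nonneg_right _ (by positivity)
    rw [← mul_div_assoc, le_div_iff₀ hk0, mul_comm ((q !) : ℝ)]
    exact hbR
  have hsum := Finset.sum_filter_add_sum_filter_not (univ : Finset (Equiv.Perm (Fin q)))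
    (fun τ => Yp y τ k ≤ ((p + 1 : ℕ) : ℝ) * (Yp y τ k - Yp y τ (k - (p + L))))
    (fun τ => (Wt X y k τ : ℝ))
  have hfin : ((ZS X y k).card : ℝ) * ((q !) : ℝ) ≤
      (2 * ((p + q - 2).choose (k - 1) : ℝ)) * ((q !) : ℝ) := by
    rw [hcnt, ← hsum]
    have h10 := mul_le_mul_of_nonneg_left h6 hfac.le
    linarith [h10, hgood, hbad]
  have hres := le_of_mul_le_mul_right hfin hfac
  exact_mod_cast hres

end Pool.Agent.helper87.NM
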